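import Pool.Agent.H64.Brouwer

/-!
A map of a product of simplices that preserves the faces takes the value `(barycenter, ...)`.
-/

namespace Pool.Agent.H53.EFF

open Finset

/-- product of `d` simplices with `n` vertices -/
def KK (d n : ℕ) : Set (Fin d → Fin n → ℝ) := {x | ∀ r, (∀ k, 0 ≤ x r k) ∧ ∑ k, x r k = 1}

theorem KK_compact (d n : ℕ) : IsCompact (KK d n) := by
  have : KK d n = Set.pi Set.univ (fun _ : Fin d => stdSimplex ℝ (Fin n)) := by
    ext x
    simp only [KK, Set.mem_ofPred_eq, Set.mem_pi, Set.mem_univ, forall_true_left, stdSimplex]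
  rw [this]
  exact isCompact_univ_pi (fun _ => isCompact_stdSimplex ℝ (Fin n))

/-- coordinates -/
def uu {d n : ℕ} (x : EuclideanSpace ℝ (Fin d × Fin n)) : Fin d → Fin n → ℝ := fun r k => x (r, k)

/-- coordinates, inverse -/
noncomputable def vv {d n : ℕ} (x : Fin d → Fin n → ℝ) : EuclideanSpace ℝ (Fin d × Fin n) :=
  WithLp.toLp 2 (fun p => x p.1 p.2)

theorem uu_vv {d n : ℕ} (x : Fin d → Fin n → ℝ) : uu (vv x) = x := rfl

theorem vv_uu {d n : ℕ} (x : EuclideanSpace ℝ (Fin d × Fin n)) : vv (uu x) = x := rfl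

theorem uu_cont {d n : ℕ} : Continuous (uu : EuclideanSpace ℝ (Fin d × Fin n) → _) := by
  unfold uu
  fun_prop

theorem vv_cont {d n : ℕ} : Continuous (vv : (Fin d → Fin n → ℝ) → _) := by
  unfold vv
  fun_prop

theorem bary (d n : ℕ) (hn : 0 < n) (Φ : (Fin d → Fin n → ℝ) → Fin d → Fin n → ℝ)
    (hc : ContinuousOn Φ (KK d n)) (hs : ∀ x ∈ KK d n, ∀ r, ∑ k, Φ x r k = 1)
    (hb : ∀ x ∈ KK d n, ∀ r k, x r k = 0 → Φ x r k < 1 / n) :
    ∃ x ∈ KK d n, ∀ r k, Φ x r k = 1 / n := by
  classical
  have hnr : (0 : ℝ) < n := by exact_mod_cast hn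
  let m : (Fin d → Fin n → ℝ) → Fin d → Fin n → ℝ := fun x r k => max 0 (1 / n - Φ x r k)
  let T : (Fin d → Fin n → ℝ) → Fin d → Fin n → ℝ :=
    fun x r k => (x r k + m x r k) / (1 + ∑ l, m x r l)
  have hm0 : ∀ x r k, 0 ≤ m x r k := fun x r k => le_max_left _ _
  have hS : ∀ x r, 0 < 1 + ∑ l, m x r l := fun x r => by
    have := Finset.sum_nonneg (fun l (_ : l ∈ Finset.univ) => hm0 x r l)
    linarith
  have hTK : ∀ x ∈ KK d n, T x ∈ KK d n := by
    intro x hx r
    refine ⟨fun k => div_nonneg (add_nonneg ((hx r).1 k) (hm0 x r k)) (hS x r).le, ?_⟩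
    change ∑ k, (x r k + m x r k) / (1 + ∑ l, m x r l) = 1
    rw [← Finset.sum_div, Finset.sum_add_distrib, (hx r).2]
    exact div_self (hS x r).ne'
  have hΦ : ∀ r k, ContinuousOn (fun x => Φ x r k) (KK d n) := by
    intro r k
    have h1 : Continuous (fun z : Fin d → Fin n → ℝ => z r k) := by fun_prop
    exact h1.comp_continuousOn hc
  have hmc : ∀ r k, ContinuousOn (fun x => m x r k) (KK d n) := by
    intro r k
    have h1 : Continuous (fun t : ℝ => max 0 (1 / (n : ℝ) - t)) := by fun_prop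
    exact h1.comp_continuousOn (hΦ r k)
  have hTc : ContinuousOn T (KK d n) := by
    apply continuousOn_pi.mpr
    intro r
    apply continuousOn_pi.mpr
    intro k
    have h1 : Continuous (fun z : Fin d → Fin n → ℝ => z r k) := by fun_prop
    apply ContinuousOn.div
    · exact h1.continuousOn.add (hmc r k)
    · exact continuousOn_const.add (continuousOn_finsetSum _ (fun l _ => hmc r l))
    · intro x _
      exact (hS x r).ne'
  let K' : Set (EuclideanSpace ℝ (Fin d × Fin n)) := uu ⁻¹' (KK d n)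
  have hK'eq : K' = vv '' (KK d n) := by
    ext x
    constructor
    · intro hx
      exact ⟨uu x, hx, vv_uu x⟩
    · rintro ⟨y, hy, rfl⟩
      exact hy
  have hK'c : IsCompact K' := by
    rw [hK'eq]
    exact (KK_compact d n).image vv_cont
  have hK'conv : Convex ℝ K' := by
    intro x hx y hy a b ha hb hab r
    refine ⟨fun k => ?_, ?_⟩
    · have h1 := (hx r).1 k
      have h2 := (hy r).1 k
      change 0 ≤ a * x (r, k) + b * y (r, k)
      exact add_nonneg (mul_nonneg ha h1) (mul_nonneg hb h2)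
    · have h1 := (hx r).2
      have h2 := (hy r).2
      change ∑ k, (a * x (r, k) + b * y (r, k)) = 1
      rw [Finset.sum_add_distrib, ← Finset.mul_sum, ← Finset.mul_sum]
      have h1' : ∑ k, x (r, k) = 1 := h1
      have h2' : ∑ k, y (r, k) = 1 := h2
      rw [h1', h2', mul_one, mul_one, hab]
  have hK'ne : K'.Nonempty := by
    refine ⟨vv (fun _ _ => 1 / n), ?_⟩
    intro r
    refine ⟨fun k => by change (0 : ℝ) ≤ 1 / n; positivity, ?_⟩
    change ∑ _k : Fin n, (1 : ℝ) / n = 1
    rw [Finset.sum_const, Finset.card_univ, Fintype.card_fin, nsmul_eq_mul]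
    exact mul_one_div_cancel hnr.ne'
  obtain ⟨x', hx'K, hx'⟩ := Pool.Agent.H64.BU.brouwer_convex hK'c hK'conv hK'ne
    (f := fun z => vv (T (uu z)))
    (vv_cont.comp_continuousOn (hTc.comp uu_cont.continuousOn (fun z hz => hz)))
    (fun z hz => by
      change uu (vv (T (uu z))) ∈ KK d n
      rw [uu_vv]
      exact hTK _ hz)
  set x := uu x' with hx
  have hxK : x ∈ KK d n := hx'K
  have hfix : T x = x := by
    have h1 := congrArg uu hx'
    rw [uu_vv] at h1
    exact h1
  refine ⟨x, hxK, ?_⟩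
  intro r
  -- the fixed point equation
  have hfe : ∀ k, x r k * ∑ l, m x r l = m x r k := by
    intro k
    have h1 : (x r k + m x r k) / (1 + ∑ l, m x r l) = x r k := congrFun (congrFun hfix r) k
    rw [div_eq_iff (hS x r).ne'] at h1
    linarith
  have hSz : ∑ l, m x r l = 0 := by
    by_contra hne
    have hSp : 0 < ∑ l, m x r l := lt_of_le_of_ne
      (Finset.sum_nonneg (fun l _ => hm0 x r l)) (fun h => hne h.symm)
    have hxp : ∀ k, 0 < x r k := by
      intro k
      refine lt_of_le_of_ne ((hxK r).1 k) (fun h => ?_)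
      have h1 := hb x hxK r k h.symm
      have h2 := hfe k
      rw [← h, zero_mul] at h2
      have h3 : 0 < m x r k := lt_max_of_lt_right (by linarith)
      rw [← h2] at h3
      exact lt_irrefl _ h3
    have hlt : ∀ k, Φ x r k < 1 / n := by
      intro k
      have h1 : 0 < m x r k := by
        rw [← hfe k]
        exact mul_pos (hxp k) hSp
      rcases lt_max_iff.mp h1 with h | h
      · exact absurd h (lt_irrefl _)
      · linarith
    have h2 : ∑ k, Φ x r k < ∑ _k : Fin n, (1 : ℝ) / n := by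
      have : (Finset.univ : Finset (Fin n)).Nonempty := ⟨⟨0, hn⟩, Finset.mem_univ _⟩
      exact Finset.sum_lt_sum_of_nonempty this (fun k _ => hlt k)
    rw [hs x hxK r, Finset.sum_const, Finset.card_univ, Fintype.card_fin, nsmul_eq_mul,
      mul_one_div_cancel hnr.ne'] at h2
    exact lt_irrefl _ h2
  have hge : ∀ k, 1 / n ≤ Φ x r k := by
    intro k
    have h1 := (Finset.sum_eq_zero_iff_of_nonneg (fun l _ => hm0 x r l)).mp hSz k
      (Finset.mem_univ k)
    have h2 : (1 : ℝ) / n - Φ x r k ≤ m x r k := le_max_right _ _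
    rw [h1] at h2
    linarith
  intro k
  by_contra hne
  have hlt : 1 / n < Φ x r k := lt_of_le_of_ne (hge k) (fun h => hne h.symm)
  have h2 : ∑ _k : Fin n, (1 : ℝ) / n < ∑ k, Φ x r k :=
    Finset.sum_lt_sum (fun k _ => hge k) ⟨k, Finset.mem_univ k, hlt⟩
  rw [hs x hxK r, Finset.sum_const, Finset.card_univ, Fintype.card_fin, nsmul_eq_mul,
    mul_one_div_cancel hnr.ne'] at h2
  exact lt_irrefl _ h2

end Pool.Agent.H53.EFF
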