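import Pool.Agent.H53.EFF.Bary

/-!
Partitions by `n - 1` hyperplanes in a fixed order.
-/

namespace Pool.Agent.H53.EFF

open Finset MeasureTheory

/-- heights of the cuts at the place of the family `t` -/
noncomputable def cut {d n : ℕ} (R : ℝ) (x : Fin d → Fin n → ℝ) (t : Fin d) (j : ℕ) : ℝ :=
  -R + 2 * R * ∑ l : Fin n, if (l : ℕ) < j then x t l else 0

theorem cut_zero {d n : ℕ} (R : ℝ) (x : Fin d → Fin n → ℝ) (t : Fin d) : cut R x t 0 = -R := by
  simp [cut]

theorem cut_n {d n : ℕ} (R : ℝ) (x : Fin d → Fin n → ℝ) (hx : x ∈ KK d n) (t : Fin d) :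
    cut R x t n = R := by
  unfold cut
  have : ∑ l : Fin n, (if (l : ℕ) < n then x t l else 0) = 1 := by
    rw [← (hx t).2]
    apply Finset.sum_congr rfl
    intro l _
    rw [if_pos l.isLt]
  rw [this]
  ring

theorem cut_succ {d n : ℕ} (R : ℝ) (x : Fin d → Fin n → ℝ) (t : Fin d) (k : Fin n) :
    cut R x t ((k : ℕ) + 1) = cut R x t k + 2 * R * x t k := by
  unfold cut
  have : ∑ l : Fin n, (if (l : ℕ) < (k : ℕ) + 1 then x t l else 0) =
      ∑ l : Fin n, (if (l : ℕ) < (k : ℕ) then x t l else 0) + x t k := by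
    have h1 : x t k = ∑ l : Fin n, (if l = k then x t l else 0) := by simp
    rw [h1, ← Finset.sum_add_distrib]
    apply Finset.sum_congr rfl
    intro l _
    by_cases h : l = k
    · subst h
      simp
    · have hne : (l : ℕ) ≠ k := fun h' => h (Fin.ext h')
      by_cases h2 : (l : ℕ) < k
      · rw [if_pos (by omega), if_pos h2, if_neg h, add_zero]
      · rw [if_neg (by omega), if_neg h2, if_neg h, add_zero]
  rw [this]
  ring

theorem cut_abs {d n : ℕ} (R : ℝ) (hR : 0 ≤ R) (x : Fin d → Fin n → ℝ) (hx : x ∈ KK d n)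
    (t : Fin d) (j : ℕ) : |cut R x t j| ≤ R := by
  have h0 : 0 ≤ ∑ l : Fin n, (if (l : ℕ) < j then x t l else 0) :=
    Finset.sum_nonneg (fun l _ => by split_ifs; exacts [(hx t).1 l, le_rfl])
  have h1 : ∑ l : Fin n, (if (l : ℕ) < j then x t l else 0) ≤ 1 := by
    rw [← (hx t).2]
    apply Finset.sum_le_sum
    intro l _
    split_ifs
    exacts [le_rfl, (hx t).1 l]
  unfold cut
  rw [abs_le]
  constructor <;> nlinarith

variable {d : ℕ} (B : Module.Basis (Fin d) ℝ (EuclideanSpace ℝ (Fin d)))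

/-- the affine function whose zero set is the cut number `j` -/
noncomputable def GG {n : ℕ} (L R : ℝ) (x : Fin d → Fin n → ℝ) (j : ℕ)
    (y : EuclideanSpace ℝ (Fin d)) : ℝ :=
  (∑ t, (1 - cut R x t j / L) * B.repr y t) - L

/-- the pieces -/
def pc {n : ℕ} (L R : ℝ) (x : Fin d → Fin n → ℝ) (k : Fin n) : Set (EuclideanSpace ℝ (Fin d)) :=
  {y | (∀ j : Fin n, 0 < (j : ℕ) → j ≤ k → 0 ≤ GG B L R x j y) ∧
    ((k : ℕ) + 1 < n → GG B L R x ((k : ℕ) + 1) y ≤ 0)}

theorem repr_cont (t : Fin d) : Continuous (fun y : EuclideanSpace ℝ (Fin d) => B.repr y t) := by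
  have : (fun y : EuclideanSpace ℝ (Fin d) => B.repr y t) = B.coord t := by
    funext y
    simp
  rw [this]
  exact LinearMap.continuous_of_finiteDimensional _

theorem GG_cont {n : ℕ} (L R : ℝ) (x : Fin d → Fin n → ℝ) (j : ℕ) :
    Continuous (GG B L R x j) := by
  unfold GG
  apply Continuous.sub _ continuous_const
  apply continuous_finsetSum
  intro t _
  exact continuous_const.mul (repr_cont B t)

theorem GG_cont_x {n : ℕ} (L R : ℝ) (j : ℕ) (y : EuclideanSpace ℝ (Fin d)) :
    Continuous (fun x : Fin d → Fin n → ℝ => GG B L R x j y) := by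
  unfold GG
  apply Continuous.sub _ continuous_const
  apply continuous_finsetSum
  intro t _
  apply Continuous.mul _ continuous_const
  apply Continuous.sub continuous_const
  apply Continuous.div_const
  unfold cut
  apply Continuous.add continuous_const
  apply Continuous.mul continuous_const
  apply continuous_finsetSum
  intro l _
  split_ifs
  · fun_prop
  · exact continuous_const

theorem GG_aff {n : ℕ} (L R : ℝ) (x : Fin d → Fin n → ℝ) (j : ℕ)
    (y z : EuclideanSpace ℝ (Fin d)) (a b : ℝ) (hab : a + b = 1) :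
    GG B L R x j (a • y + b • z) = a * GG B L R x j y + b * GG B L R x j z := by
  unfold GG
  have h1 : ∑ t, (1 - cut R x t j / L) * B.repr (a • y + b • z) t =
      a * ∑ t, (1 - cut R x t j / L) * B.repr y t +
      b * ∑ t, (1 - cut R x t j / L) * B.repr z t := by
    rw [Finset.mul_sum, Finset.mul_sum, ← Finset.sum_add_distrib]
    apply Finset.sum_congr rfl
    intro t _
    simp only [map_add, map_smul, Finsupp.add_apply, Finsupp.smul_apply, smul_eq_mul]
    ring
  rw [h1]
  linear_combination L * hab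

theorem GG_null {n : ℕ} (L R : ℝ) (hL : L ≠ 0) (x : Fin d → Fin n → ℝ) (j : ℕ) :
    volume {y : EuclideanSpace ℝ (Fin d) | GG B L R x j y = 0} = 0 := by
  let s : AffineSubspace ℝ (EuclideanSpace ℝ (Fin d)) :=
    { carrier := {y | GG B L R x j y = 0}
      smul_vsub_vadd_mem' := by
        intro t p q r hp hq hr
        simp only [Set.mem_ofPred_eq] at hp hq hr ⊢
        have h3 : t • (p -ᵥ q) +ᵥ r =
            (2 : ℝ) • ((1 / 2 : ℝ) • (t • p + (1 - t) • q) + (1 / 2 : ℝ) • r) + (-1 : ℝ) • q := by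
          simp only [vsub_eq_sub, vadd_eq_add]
          module
        rw [h3, GG_aff B L R x j _ _ _ _ (by norm_num), GG_aff B L R x j _ _ _ _ (by norm_num),
          GG_aff B L R x j _ _ _ _ (by ring), hp, hq, hr]
        ring }
  have hs : s ≠ ⊤ := by
    intro hs
    have h0 : (0 : EuclideanSpace ℝ (Fin d)) ∈ s := by rw [hs]; exact AffineSubspace.mem_top _ _ _
    have h1 : GG B L R x j 0 = 0 := h0
    unfold GG at h1
    simp at h1
    exact hL h1
  exact Measure.addHaar_affineSubspace volume s hs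

theorem pc_convex {n : ℕ} (L R : ℝ) (x : Fin d → Fin n → ℝ) (k : Fin n) :
    Convex ℝ (pc B L R x k) := by
  intro y hy z hz a b ha hb hab
  refine ⟨fun j hj hjk => ?_, fun hk => ?_⟩
  · rw [GG_aff B L R x j y z a b hab]
    exact add_nonneg (mul_nonneg ha (hy.1 j hj hjk)) (mul_nonneg hb (hz.1 j hj hjk))
  · rw [GG_aff B L R x _ y z a b hab]
    have h1 := mul_nonneg ha (neg_nonneg.mpr (hy.2 hk))
    have h2 := mul_nonneg hb (neg_nonneg.mpr (hz.2 hk))
    linarith

theorem pc_closed {n : ℕ} (L R : ℝ) (x : Fin d → Fin n → ℝ) (k : Fin n) :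
    IsClosed (pc B L R x k) := by
  have : pc B L R x k = (⋂ j : Fin n, ⋂ (_ : 0 < (j : ℕ)), ⋂ (_ : j ≤ k),
      {y | 0 ≤ GG B L R x j y}) ∩ ⋂ (_ : (k : ℕ) + 1 < n), {y | GG B L R x ((k : ℕ) + 1) y ≤ 0} := by
    ext y
    simp [pc]
  rw [this]
  apply IsClosed.inter
  · exact isClosed_iInter fun j => isClosed_iInter fun _ => isClosed_iInter fun _ =>
      isClosed_le continuous_const (GG_cont B L R x j)
  · exact isClosed_iInter fun _ => isClosed_le (GG_cont B L R x _) continuous_const

theorem pc_cover {n : ℕ} (hn : 0 < n) (L R : ℝ) (x : Fin d → Fin n → ℝ) :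
    (⋃ k, pc B L R x k) = Set.univ := by
  classical
  rw [Set.eq_univ_iff_forall]
  intro y
  by_cases hex : ∃ k : ℕ, k + 1 < n ∧ GG B L R x (k + 1) y ≤ 0
  · have hk := Nat.find_spec hex
    set k := Nat.find hex with hkd
    refine Set.mem_iUnion.mpr ⟨⟨k, by omega⟩, ?_, fun _ => hk.2⟩
    intro j hj hjk
    have hjk' : (j : ℕ) ≤ k := hjk
    have h1 := Nat.find_min hex (m := (j : ℕ) - 1) (by omega)
    have h2 : (j : ℕ) - 1 + 1 = j := by omega
    rw [h2] at h1
    by_contra hcon
    exact h1 ⟨by omega, (not_le.mp hcon).le⟩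
  · push Not at hex
    refine Set.mem_iUnion.mpr ⟨⟨n - 1, by omega⟩, ?_, fun h => ?_⟩
    · intro j hj _
      have h2 : (j : ℕ) - 1 + 1 = j := by omega
      have h1 := hex ((j : ℕ) - 1) (by omega)
      rw [h2] at h1
      exact h1.le
    · exfalso
      change n - 1 + 1 < n at h
      omega

theorem pc_disj {n : ℕ} (L R : ℝ) (hL : L ≠ 0) (x : Fin d → Fin n → ℝ) (k l : Fin n)
    (hkl : k ≠ l) : Disjoint (interior (pc B L R x k)) (interior (pc B L R x l)) := by
  wlog hlt : k < l generalizing k l with H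
  · exact (H l k hkl.symm (lt_of_le_of_ne (not_lt.mp hlt) hkl.symm)).symm
  rw [Set.disjoint_iff_inter_eq_empty]
  by_contra hne
  have hne' : (interior (pc B L R x k) ∩ interior (pc B L R x l)).Nonempty :=
    Set.nonempty_iff_ne_empty.mpr hne
  have hopen : IsOpen (interior (pc B L R x k) ∩ interior (pc B L R x l)) :=
    isOpen_interior.inter isOpen_interior
  have hpos := hopen.measure_pos (volume : Measure (EuclideanSpace ℝ (Fin d))) hne'
  have hk1 : (k : ℕ) + 1 < n := by
    have := l.isLt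
    have h2 : (k : ℕ) < l := hlt
    omega
  have hsub : interior (pc B L R x k) ∩ interior (pc B L R x l) ⊆
      {y | GG B L R x ((k : ℕ) + 1) y = 0} := by
    rintro y ⟨h1, h2⟩
    have h3 := (interior_subset h1).2 hk1
    have h4 := (interior_subset h2).1 ⟨(k : ℕ) + 1, hk1⟩ (Nat.succ_pos _) (by
      have h5 : (k : ℕ) < l := hlt
      exact h5)
    exact le_antisymm h3 h4
  have := measure_mono_null hsub (GG_null B L R hL x ((k : ℕ) + 1))
  rw [this] at hpos
  exact lt_irrefl _ hpos

/-- the measure of a piece depends continuously on the parameters -/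
theorem pc_cont {n : ℕ} (L R : ℝ) (hL : L ≠ 0) (μ : Measure (EuclideanSpace ℝ (Fin d)))
    [IsFiniteMeasure μ] (hμ : μ.AbsolutelyContinuous volume) (x : Fin d → Fin n → ℝ) (k : Fin n) :
    ContinuousAt (fun z : Fin d → Fin n → ℝ => μ (pc B L R z k)) x := by
  refine tendsto_measure_of_ae_tendsto_indicator_of_isFiniteMeasure (nhds x)
    (pc_closed B L R x k).measurableSet (fun z => (pc_closed B L R z k).measurableSet) ?_
  have hnull : ∀ᵐ y ∂μ, ∀ j : Fin (n + 1), GG B L R x j y ≠ 0 := by
    rw [ae_all_iff]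
    intro j
    have h0 := hμ (GG_null B L R hL x j)
    rw [ae_iff]
    simpa using h0
  filter_upwards [hnull] with y hy
  have hcont : ∀ j : ℕ, Continuous fun z : Fin d → Fin n → ℝ => GG B L R z j y :=
    fun j => GG_cont_x B L R j y
  by_cases hmem : y ∈ pc B L R x k
  · have hev1 : ∀ᶠ z in nhds x, ∀ j : Fin n, 0 < (j : ℕ) → j ≤ k → 0 ≤ GG B L R z j y := by
      rw [Filter.eventually_all]
      intro j
      by_cases hj : 0 < (j : ℕ) ∧ j ≤ k
      · have h1 : 0 < GG B L R x j y := lt_of_le_of_ne (hmem.1 j hj.1 hj.2)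
          (fun h => hy ⟨j, by omega⟩ h.symm)
        filter_upwards [(hcont j).continuousAt.eventually (lt_mem_nhds h1)] with z hz _ _
        exact hz.le
      · exact Filter.Eventually.of_forall fun z h1 h2 => absurd ⟨h1, h2⟩ hj
    have hev2 : ∀ᶠ z in nhds x, (k : ℕ) + 1 < n → GG B L R z ((k : ℕ) + 1) y ≤ 0 := by
      by_cases hk : (k : ℕ) + 1 < n
      · have h1 : GG B L R x ((k : ℕ) + 1) y < 0 := lt_of_le_of_ne (hmem.2 hk)
          (hy ⟨(k : ℕ) + 1, by omega⟩)
        filter_upwards [(hcont ((k : ℕ) + 1)).continuousAt.eventually (gt_mem_nhds h1)] with z hz _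
        exact hz.le
      · exact Filter.Eventually.of_forall fun z h => absurd h hk
    filter_upwards [hev1, hev2] with z h1 h2
    exact iff_of_true ⟨h1, h2⟩ hmem
  · have hex : (∃ j : Fin n, 0 < (j : ℕ) ∧ j ≤ k ∧ GG B L R x j y < 0) ∨
        ((k : ℕ) + 1 < n ∧ 0 < GG B L R x ((k : ℕ) + 1) y) := by
      by_contra hcon
      push Not at hcon
      exact hmem ⟨hcon.1, hcon.2⟩
    rcases hex with ⟨j, hj1, hj2, hj3⟩ | ⟨hk, hk2⟩
    · filter_upwards [(hcont j).continuousAt.eventually (gt_mem_nhds hj3)] with z hz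
      refine iff_of_false ?_ hmem
      intro h
      exact absurd (h.1 j hj1 hj2) (not_le.mpr hz)
    · filter_upwards [(hcont ((k : ℕ) + 1)).continuousAt.eventually (lt_mem_nhds hk2)] with z hz
      refine iff_of_false ?_ hmem
      intro h
      exact absurd (h.2 hk) (not_le.mpr hz)

/-- height over the place of a family -/
noncomputable def hh (z : EuclideanSpace ℝ (Fin d)) : ℝ := ∑ t, B.repr z t

/-- size -/
noncomputable def sz (z : EuclideanSpace ℝ (Fin d)) : ℝ := ∑ t, |B.repr z t|

theorem hh_le (z : EuclideanSpace ℝ (Fin d)) : |hh B z| ≤ sz B z :=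
  Finset.abs_sum_le_sum_abs _ _

theorem GG_shift {n : ℕ} (L R : ℝ) (hL : L ≠ 0) (x : Fin d → Fin n → ℝ) (j : ℕ) (r : Fin d)
    (z : EuclideanSpace ℝ (Fin d)) :
    GG B L R x j (z + L • B r) = hh B z - cut R x r j - ∑ t, cut R x t j * B.repr z t / L := by
  unfold GG hh
  have h1 : ∀ t, (1 - cut R x t j / L) * B.repr (z + L • B r) t =
      B.repr z t - cut R x t j * B.repr z t / L + (if t = r then L - cut R x t j else 0) := by
    intro t
    simp only [map_add, map_smul, Finsupp.add_apply, Finsupp.smul_apply, smul_eq_mul,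
      Module.Basis.repr_self, Finsupp.single_apply]
    by_cases h : r = t
    · subst h
      simp only [if_true]
      field_simp
    · have h' : t ≠ r := fun h2 => h h2.symm
      simp only [if_neg h, if_neg h']
      ring
  rw [Finset.sum_congr rfl (fun t _ => h1 t), Finset.sum_add_distrib, Finset.sum_sub_distrib,
    Finset.sum_ite_eq']
  simp only [Finset.mem_univ, if_true]
  ring

/-- a piece whose coordinate for the family `r` vanishes is seen by it as a thin slab -/
theorem thin {n : ℕ} (L R : ℝ) (hL : 0 < L) (hR : 0 ≤ R) (x : Fin d → Fin n → ℝ)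
    (hx : x ∈ KK d n) (r : Fin d) (k : Fin n) (h0 : x r k = 0) (z : EuclideanSpace ℝ (Fin d))
    (hz : sz B z ≤ R) (hmem : z + L • B r ∈ pc B L R x k) :
    |hh B z - cut R x r k| ≤ R * R / L := by
  have herr : ∀ j : ℕ, |∑ t, cut R x t j * B.repr z t / L| ≤ R * R / L := by
    intro j
    refine le_trans (Finset.abs_sum_le_sum_abs _ _) ?_
    have h1 : ∀ t, |cut R x t j * B.repr z t / L| ≤ R * |B.repr z t| / L := by
      intro t
      rw [abs_div, abs_mul, abs_of_pos hL]
      apply div_le_div_of_nonneg_right _ hL.le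
      exact mul_le_mul_of_nonneg_right (cut_abs R hR x hx t j) (abs_nonneg _)
    refine le_trans (Finset.sum_le_sum (fun t _ => h1 t)) ?_
    rw [← Finset.sum_div, ← Finset.mul_sum]
    apply div_le_div_of_nonneg_right _ hL.le
    exact mul_le_mul_of_nonneg_left hz hR
  have hRL : 0 ≤ R * R / L := by positivity
  have hhz := abs_le.mp (le_trans (hh_le B z) hz)
  have hs : cut R x r ((k : ℕ) + 1) = cut R x r k := by
    rw [cut_succ, h0]
    ring
  rw [abs_le]
  constructor
  · by_cases hk : 0 < (k : ℕ)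
    · have h1 := hmem.1 k hk le_rfl
      rw [GG_shift B L R hL.ne'] at h1
      have h2 := abs_le.mp (herr k)
      linarith
    · have hk0 : (k : ℕ) = 0 := by omega
      rw [hk0, cut_zero]
      linarith
  · by_cases hk : (k : ℕ) + 1 < n
    · have h1 := hmem.2 hk
      rw [GG_shift B L R hL.ne'] at h1
      have h2 := abs_le.mp (herr ((k : ℕ) + 1))
      rw [hs] at h1
      linarith
    · have hkn : (k : ℕ) + 1 = n := by have := k.isLt; omega
      have h1 := cut_n R x hx r
      have h2 : cut R x r ((k : ℕ) + 1) = R := by rw [hkn]; exact h1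
      rw [hs] at h2
      rw [h2]
      linarith

end Pool.Agent.H53.EFF
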