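import Mathlib

/-!
No absolutely continuous finite measure concentrates on thin parallel slabs, uniformly.
-/

namespace Pool.Agent.H53.EFF

open MeasureTheory

theorem slab {E : Type*} [NormedAddCommGroup E] [MeasurableSpace E] [BorelSpace E]
    (μ : Measure E) [IsFiniteMeasure μ] (h : E → ℝ) (hh : Continuous h)
    (h0 : ∀ σ : ℝ, μ {z | h z = σ} = 0) (ε : ENNReal) (hε : 0 < ε) :
    ∃ τ : ℝ, 0 < τ ∧ ∀ σ : ℝ, μ {z | |h z - σ| ≤ τ} ≤ ε := by
  -- tails
  have htail : ∃ M : ℝ, μ {z | M < |h z|} < ε := by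
    have h1 : Filter.Tendsto (fun m : ℕ => μ {z | (m : ℝ) < |h z|}) Filter.atTop
        (nhds (μ (⋂ m : ℕ, {z | (m : ℝ) < |h z|}))) := by
      apply tendsto_measure_iInter_atTop
      · intro m
        exact (measurableSet_lt measurable_const (hh.abs.measurable)).nullMeasurableSet
      · intro a b hab z hz
        have : (a : ℝ) ≤ b := by exact_mod_cast hab
        exact lt_of_le_of_lt this hz
      · exact ⟨0, measure_ne_top _ _⟩
    have h2 : (⋂ m : ℕ, {z | (m : ℝ) < |h z|}) = ∅ := by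
      ext z
      simp only [Set.mem_iInter, Set.mem_ofPred_eq, Set.mem_empty_iff_false, iff_false, not_forall,
        not_lt]
      obtain ⟨m, hm⟩ := exists_nat_ge |h z|
      exact ⟨m, hm⟩
    rw [h2, measure_empty] at h1
    obtain ⟨m, hm⟩ := (h1.eventually (gt_mem_nhds hε)).exists
    exact ⟨m, hm⟩
  obtain ⟨M, hM⟩ := htail
  by_contra hcon
  push Not at hcon
  have hs := fun m : ℕ => hcon (1 / ((m : ℝ) + 1)) (by positivity)
  choose σ hσ using hs
  have hbd : ∀ m, |σ m| ≤ M + 1 := by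
    intro m
    by_contra hlt
    push Not at hlt
    apply absurd (hσ m)
    rw [not_lt]
    refine le_trans (measure_mono ?_) hM.le
    intro z hz
    have h1 : |h z - σ m| ≤ 1 := by
      refine le_trans hz ?_
      rw [div_le_one (by positivity)]
      have : (0 : ℝ) ≤ m := Nat.cast_nonneg m
      linarith
    change M < |h z|
    have h2 : |σ m| ≤ |h z| + |h z - σ m| := by
      have := abs_sub_abs_le_abs_sub (σ m) (h z)
      rw [abs_sub_comm (σ m)] at this
      linarith
    linarith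
  obtain ⟨σ0, _, φ, hφ, hlim⟩ := (isCompact_Icc (a := -(M + 1)) (b := M + 1)).tendsto_subseq
    (x := σ) (fun m => abs_le.mp (hbd m))
  have hge : ∀ η : ℝ, 0 < η → ε ≤ μ {z | |h z - σ0| ≤ η} := by
    intro η hη
    have h1 : ∀ᶠ m in Filter.atTop, |σ (φ m) - σ0| < η / 2 := by
      have := (Metric.tendsto_nhds.mp hlim) (η / 2) (by positivity)
      simpa [Real.dist_eq] using this
    have h2 : ∀ᶠ m in Filter.atTop, 1 / (((φ m : ℕ) : ℝ) + 1) < η / 2 := by
      have : Filter.Tendsto (fun m => 1 / (((φ m : ℕ) : ℝ) + 1)) Filter.atTop (nhds 0) :=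
        tendsto_one_div_add_atTop_nhds_zero_nat.comp hφ.tendsto_atTop
      exact this.eventually (gt_mem_nhds (by positivity))
    obtain ⟨m, hm1, hm2⟩ := (h1.and h2).exists
    refine le_trans (hσ (φ m)).le (measure_mono ?_)
    intro z hz
    change |h z - σ0| ≤ η
    have h3 : |h z - σ0| ≤ |h z - σ (φ m)| + |σ (φ m) - σ0| := abs_sub_le _ _ _
    have h4 : |h z - σ (φ m)| ≤ 1 / (((φ m : ℕ) : ℝ) + 1) := hz
    linarith
  have h1 : Filter.Tendsto (fun m : ℕ => μ {z | |h z - σ0| ≤ 1 / ((m : ℝ) + 1)}) Filter.atTop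
      (nhds (μ (⋂ m : ℕ, {z | |h z - σ0| ≤ 1 / ((m : ℝ) + 1)}))) := by
    apply tendsto_measure_iInter_atTop
    · intro m
      exact (measurableSet_le ((hh.sub continuous_const).abs.measurable)
        measurable_const).nullMeasurableSet
    · intro a b hab z hz
      have : (a : ℝ) ≤ b := by exact_mod_cast hab
      have hz' : |h z - σ0| ≤ 1 / ((b : ℝ) + 1) := hz
      change |h z - σ0| ≤ 1 / ((a : ℝ) + 1)
      refine le_trans hz' ?_
      apply one_div_le_one_div_of_le (by positivity)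
      linarith
    · exact ⟨0, measure_ne_top _ _⟩
  have h2 : (⋂ m : ℕ, {z | |h z - σ0| ≤ 1 / ((m : ℝ) + 1)}) ⊆ {z | h z = σ0} := by
    intro z hz
    simp only [Set.mem_iInter, Set.mem_ofPred_eq] at hz
    have h3 : |h z - σ0| ≤ 0 :=
      le_of_tendsto_of_tendsto' tendsto_const_nhds tendsto_one_div_add_atTop_nhds_zero_nat hz
    have h4 := abs_nonpos_iff.mp h3
    change h z = σ0
    linarith
  have h3 : μ (⋂ m : ℕ, {z | |h z - σ0| ≤ 1 / ((m : ℝ) + 1)}) = 0 :=
    measure_mono_null h2 (h0 σ0)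
  rw [h3] at h1
  have h4 : ε ≤ 0 := ge_of_tendsto' h1 (fun m => hge _ (by positivity))
  exact absurd hε (not_lt.mpr h4)

end Pool.Agent.H53.EFF
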